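import Pool.Agent.Q25.PLP.Stm

/-!
# Points, lines and planes: the sums over the planes (steps G1 and G2)
-/

set_option autoImplicit false

open Finset Pool.Agent.Helper123.PLP Pool.Agent.Q25.PLP

namespace Pool.Agent.Q291.PLPG1

theorem t_G1 : S_G1 := by
  intro P _ _ G c hc
  have hL : ∀ (X : Finset (Finset P)) (x : P) (f : ℝ → ℝ), f 0 = 0 →
      ∑ l ∈ X, f (c l x) = ∑ l ∈ X.filter (fun l => x ∈ l), f (c l x) := by
    intro X x f hf
    rw [sum_filter]
    apply sum_congr rfl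
    intro l _
    by_cases hx : x ∈ l
    · simp [hx]
    · simp [hx, hc l x hx, hf]
  have h1 : ∀ x : P, (gg G.L c x) ^ 2 = ∑ l ∈ G.L.filter (fun l => x ∈ l), (c l x) ^ 2 +
      ∑ h ∈ G.Hv x, ((∑ l ∈ inn G.L h, c l x) ^ 2 - ∑ l ∈ inn G.L h, (c l x) ^ 2) := by
    intro x
    have e := G.pairs x (G.Lv x) (G.Lv x) (Finset.Subset.refl _) (Finset.Subset.refl _)
      (fun l => c l x) (fun l => c l x)
    simp only [Finset.inter_self] at e
    have e1 : ∀ h, inn (G.Lv x) h = (inn G.L h).filter (fun l => x ∈ l) := by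
      intro h
      unfold inn Geo.Lv
      rw [Finset.filter_filter, Finset.filter_filter]
      apply Finset.filter_congr
      intro l _
      exact and_comm
    have e2 : ∀ h, ∑ l ∈ inn G.L h, c l x = ∑ l ∈ inn (G.Lv x) h, c l x := by
      intro h
      rw [e1 h]
      exact hL (inn G.L h) x (fun t => t) rfl
    have e3 : ∀ h, ∑ l ∈ inn G.L h, (c l x) ^ 2 = ∑ l ∈ inn (G.Lv x) h, (c l x) ^ 2 := by
      intro h
      rw [e1 h]
      exact hL (inn G.L h) x (fun t => t ^ 2) (by norm_num)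
    have e4 : gg G.L c x = ∑ l ∈ G.Lv x, c l x := hL G.L x (fun t => t) rfl
    have e5 : ∑ h ∈ G.Hv x, ((∑ l ∈ inn G.L h, c l x) ^ 2 - ∑ l ∈ inn G.L h, (c l x) ^ 2) =
        (∑ l ∈ G.Lv x, c l x) ^ 2 - ∑ l ∈ G.Lv x, (c l x) ^ 2 := by
      calc ∑ h ∈ G.Hv x, ((∑ l ∈ inn G.L h, c l x) ^ 2 - ∑ l ∈ inn G.L h, (c l x) ^ 2)
          = ∑ h ∈ G.Hv x, ((∑ j ∈ inn (G.Lv x) h, c j x) * (∑ j ∈ inn (G.Lv x) h, c j x)
              - ∑ j ∈ inn (G.Lv x) h, c j x * c j x) := by
            apply sum_congr rfl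
            intro h _
            rw [e2 h, e3 h, sq]
            congr 1
            apply sum_congr rfl
            intro l _
            rw [sq]
        _ = (∑ l ∈ G.Lv x, c l x) * (∑ l ∈ G.Lv x, c l x) - ∑ l ∈ G.Lv x, c l x * c l x := e
        _ = (∑ l ∈ G.Lv x, c l x) ^ 2 - ∑ l ∈ G.Lv x, (c l x) ^ 2 := by
            rw [sq]
            congr 1
            apply sum_congr rfl
            intro l _
            rw [sq]
    rw [e5, e4]
    change _ = ∑ l ∈ G.Lv x, (c l x) ^ 2 + _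
    ring
  rw [sum_congr rfl (fun x _ => h1 x), sum_add_distrib]
  congr 1
  · -- the diagonal
    have : ∀ x : P, ∑ l ∈ G.L.filter (fun l => x ∈ l), (c l x) ^ 2 =
        ∑ l ∈ G.L, if x ∈ l then (c l x) ^ 2 else 0 := fun x => sum_filter _ _
    rw [sum_congr rfl (fun x _ => this x), sum_comm]
    apply sum_congr rfl
    intro l _
    rw [← sum_filter]
    apply sum_congr _ (fun _ _ => rfl)
    ext x; simp
  · unfold PP Geo.Hv
    have : ∀ x : P, ∑ h ∈ G.H.filter (fun h => x ∈ h),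
        ((∑ l ∈ inn G.L h, c l x) ^ 2 - ∑ l ∈ inn G.L h, (c l x) ^ 2) =
        ∑ h ∈ G.H, if x ∈ h then
          ((∑ l ∈ inn G.L h, c l x) ^ 2 - ∑ l ∈ inn G.L h, (c l x) ^ 2) else 0 :=
      fun x => sum_filter _ _
    rw [sum_congr rfl (fun x _ => this x), sum_comm]
    apply sum_congr rfl
    intro h _
    rw [← sum_filter]
    apply sum_congr _ (fun _ _ => rfl)
    ext x; simp

theorem t_G2 : S_G2 := by
  intro P _ _ G γ c
  have key : ∀ (f : Finset P → P → ℝ), ∑ h ∈ G.H, ∑ l ∈ inn G.L h, ∑ z ∈ h \ l, f l z =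
      ∑ l ∈ G.L, ∑ z ∈ univ \ l, f l z := by
    intro f
    have a1 : ∀ h ∈ G.H, ∑ l ∈ inn G.L h, ∑ z ∈ h \ l, f l z =
        ∑ l ∈ G.L, ∑ z ∈ univ \ l, if l ⊆ h ∧ z ∈ h then f l z else 0 := by
      intro h _
      unfold inn
      rw [sum_filter]
      apply sum_congr rfl
      intro l _
      by_cases hl : l ⊆ h
      · simp only [hl, if_true, true_and]
        rw [← sum_filter]
        apply sum_congr _ (fun _ _ => rfl)
        ext z; simp [and_comm]
      · simp [hl]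
    rw [sum_congr rfl a1, sum_comm]
    apply sum_congr rfl
    intro l hl
    rw [sum_comm]
    apply sum_congr rfl
    intro z hz
    have hzl : z ∉ l := by simpa using hz
    obtain ⟨h, hh, hlh, hzh⟩ := G.ex_plane l hl z hzl
    rw [sum_eq_single h]
    · simp [hlh, hzh]
    · intro k hk hne
      rw [if_neg]
      rintro ⟨h1, h2⟩
      exact hne (G.uniq_plane l hl z hzl k hk h hh h1 h2 hlh hzh)
    · intro hn
      exact absurd hh hn
  unfold LamC
  exact key (fun l z => (∑ x ∈ l, c l x * γ x) - γ z)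

end Pool.Agent.Q291.PLPG1
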